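import Pool.Agent.V11231.SZF.Sum

/-!
# 3SUM on presence bits by circuits with unreliable negations

The definitions used in the statement are in `Pool/Agent/V11231/SMF/Host.lean` (`HasSum`: the set
given by a table of bits has three different elements with `a + b = c`; `size`: its number of
elements) and in `Pool/Agent/V11231/FLT/Slot.lean` (`LiteralCircuit`: circuits of nondecreasing real
gates of fan-in two on bits and negated bits; `acceptance`, `faultyAcceptance`: the probability that
a random circuit of a family accepts an input, without faults and if each negated input is stuck at
`0` independently with probability `1 / D`).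

Idea of the proof. The hard sets for monotone circuits (`H560R2`) have no solution even with equal
summands in the second case. A number `z` is replaced by the faulty positions among the numbers
`2 K z, ..., 2 K z + K - 1`, where `K` is about `D ^ (3 / 2)`. Sums of two such numbers do not wrap
around, so no solutions arise, and if `a + b = c` then, by the second moment, the classes of `a`,
`b` and `c` contain faulty positions `2 K a + i`, `2 K b + j`, `2 K c + i + j`, except with small
probability; each number becomes only about `D ^ (1 / 2)` numbers. On these inputs faults only
concern bits that are `1`, so a circuit that tolerates random faults becomes, for fixed faults, a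
monotone circuit for the small set.
-/

set_option autoImplicit false

namespace Pool.Agent.Results.MP_13bec0_lc.FaultyNegations

open Pool.Agent.V11231.FLT Pool.Agent.V11231.SMF

/-- Let `t, h ≥ 0`, `b > 0` and `t + h < 2`. Let `N` be large, `U ≥ N ^ (1 + h + b)` and
`1 ≤ D ≤ N ^ h`. Let a finite family of circuits read the presence bits of the sets of at most `N`
integers between `0` and `U - 1` and the negations of these bits. Suppose that they accept each set
that contains three different elements `a`, `b`, `c` with `a + b = c` with probability at least
`4 / 5`, even if each negated input is stuck at `0` independently with probability `1 / D`, and that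
they accept each other set with probability at most `1 / 4`, without faults. Then some circuit of
the family has more than `N ^ t` gates. -/
theorem result (t h b : ℝ) (ht : 0 ≤ t) (hh : 0 ≤ h) (hb : 0 < b) (hth : t + h < 2) :
    ∃ N₀ : ℕ, ∀ N : ℕ, N₀ ≤ N → ∀ U : ℕ, (N : ℝ) ^ (1 + h + b) ≤ U →
      ∀ D : ℕ, 1 ≤ D → (D : ℝ) ≤ (N : ℝ) ^ h →
      ∀ (R : Type) [Fintype R] [Nonempty R] (C : R → LiteralCircuit (Fin U)),
      (∀ x : Fin U → Bool, size x ≤ N → HasSum x → 4 / 5 ≤ faultyAcceptance C D x) →
      (∀ x : Fin U → Bool, size x ≤ N → ¬ HasSum x → acceptance C x ≤ 1 / 4) →
      ∃ r, (N : ℝ) ^ t < (C r).s :=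
  Pool.Agent.V11231.SZF.sum_fault2 t h b ht hh hb hth

end Pool.Agent.Results.MP_13bec0_lc.FaultyNegations
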