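import Pool.Agent.V11228.KSum

/-!
# 3SUM needs many reads or much memory even if all the numbers are known up to their last bits

The inputs are the bits (sign and absolute value in binary) of `N` numbers, `Yes` says that there are
three different numbers `a`, `b`, `c` with `a + b = c` (`Pool/Agent/W896/FD/Sum3.lean`). We fix, once
and for all, natural numbers `u_1, ..., u_N` and a set `T` of `2 n` of the indices, and consider only
the inputs in which the number `i` is `2 u_i` for `i` outside `T`, and `2 u_i` or `2 u_i + 1` for `i`
in `T` (`Known`). So everything about the input is known in advance, except for the last bits of `2 n`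
numbers; the algorithms may depend on the numbers `u_i` in an arbitrary way (every preprocessing is
free of charge). In particular all instances are subsets of one fixed universe of less than `2 N`
numbers: 3SUM with a preprocessed universe. We show that this does not help, in two models of
computation.

* Circuits with AND gates of fan-in two, OR gates of any fan-in and negations at the inputs
  (nondeterministic branching programs and programs with a stack are of this kind). The formal degree
  in an input bit is the largest number of leaves with this bit in a proof tree.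
* Tree tensor networks: every leaf of a binary tree reads one bit and holds a vector, depending on
  the bit, with coordinates in `W`, every inner node combines the vectors of its children by any
  bilinear map; an input is accepted if a linear form of the vector of the root is not zero.
  Contributions of different computations may cancel; the field is arbitrary.

The circuits or networks have to accept the inputs without a solution, and no input with a solution;
they may be random with one-sided error, and accept with exponentially small probability. All bits
but the `2 n` last bits of the numbers in `T` may be read as often as one likes (they are constant).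
If the `2 n` bits are read at most `k n` times in total, the memory is at least `n / 2 ^ (O (k))`; the
number `N` of all the numbers is at most `2 ^ (O (k)) n`. With a memory of `n ^ (1 - ε)` bits one
needs `Ω (ε n log n)` reads, and `N ≤ n ^ (1 + ε)`.

In the results which were known for these models (the starting file `FormalDegree`, and
`TensorNetworks` by another helper) the leading bits of the hard instances depend on the circuit:
they code a matching which is chosen at random after the reads are fixed.

**Proof.** The numbers code a sparse bipartite graph: `a_i = 2 G + 4 i + x_i`,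
`b_j = 6 G + 4 n j + y_j`, and `8 G + 4 (i + n j) + 2` for the edges `i j` of the graph, where `G` is
large. Then there is a solution if and only if `x_i = y_j = 1` for some edge. By a random choice
there is a graph with `2 ^ (O (k)) n` edges which has an edge between any two sets of
`n / 2 ^ (O (k))` vertices on the two sides, and this is enough to find a large matching between
the places which are read on the one side and those which are read on the other side of a division
of the computation into few pieces, after the graph is fixed. The theorems of the module
`Pool/Agent/V11228/OMv*.lean` (my results on matrix-vector products with a fixed matrix) give the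
bounds.
-/

set_option autoImplicit false

open Finset

namespace Pool.Agent.Results.MP_13bec0_lc.KnownUpToLastBit

open Pool.Agent.W896.RK Pool.Agent.W896.FD Pool.Agent.TH700.TN Pool.Agent.V11228.KSum
open Pool.Agent.W896.FD.Sum3 (Valid Yes)

/-- The bit `(i, none)` is the sign of the number `i`, the bit `(i, some j)` has the weight `2 ^ j`;
`w + 1` bits are enough for `N ^ 3`. `Valid` means that the numbers are different and in
`[-N ^ 3, N ^ 3]`, `Known u T` that the number `i` is `2 u i`, or `2 u i + 1` if `i ∈ T`.

(1) For all `k` and `n ≥ 4` there are `N ≤ 2 ^ (16 k + 27) n` natural numbers `u i` and a set `T` of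
`2 n` indices such that all inputs of the kind `Known u T` are valid, and:
(a) let `U r` (`r` in a finite nonempty set) be circuits none of which accepts an input of this kind
with a solution `a + b = c`, while every input of this kind without a solution is accepted by at
least a `2 ^ (- ⌊n / 2 ^ (70 (k + 1))⌋)` fraction of them; if in each `U r` the formal degrees in the
last bits of the numbers in `T` sum up to at most `k n`, then some `U r` has `g` gates with
`n ≤ 2 ^ (70 (k + 1)) (⌊log₂ g⌋ + 1)`;
(b) the same is true for tree tensor networks over any fields with at most `k n` leaves which read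
these bits, with the bond dimension `|W r|` in place of `g`.

(2) For `0 < ε ≤ 1` and all large `n` there are such `u` and `T` with `N ≤ n ^ (1 + ε)` for which
circuits with at most `2 ^ m` gates, or networks of bond dimension at most `2 ^ m`, whose acceptance
probability is at least `2 ^ (- μ)` on the inputs without a solution, `m, μ ≤ n ^ (1 - ε)`, have
degrees, or numbers of leaves, whose sum over the last bits of the numbers in `T` is at least
`(ε / 210) n log₂ n` for some `r`.

(3) For every field, all `N`, `w` and every nonempty set `T` of indices there is a network of bond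
dimension `2 ^ |T| + 1` with one leaf for each last bit of a number in `T` which accepts exactly the
valid inputs (of any kind) without a solution. -/
theorem result :
    (∀ k n : ℕ, 4 ≤ n → ∃ (N : ℕ) (u : Fin N → ℕ) (T : Finset (Fin N)),
      N ≤ 2 ^ (16 * k + 27) * n ∧ T.card = 2 * n ∧
      (∀ w, ∀ x : Fin N × Option (Fin (w + 1)) → Bool, Known u T x → Valid x) ∧
      (∀ w, N ^ 3 < 2 ^ (w + 1) →
        ∀ (R : Type) [Fintype R] [Nonempty R] (U : R → Circ (Fin N × Option (Fin (w + 1)))),
        (∀ r x, Known u T x → (U r).Val x (U r).out → ¬ Yes x) →
        (∀ x, Known u T x → ¬ Yes x → Nat.card R ≤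
          2 ^ (n / 2 ^ (70 * (k + 1))) * Nat.card {r // (U r).Val x (U r).out}) →
        (∀ r, ∃ d : (U r).G → Fin N × Option (Fin (w + 1)) → ℕ, IsDeg (U r) id d ∧
          ∑ i ∈ T, d (U r).out (i, some 0) ≤ k * n) →
        ∃ r, n ≤ 2 ^ (70 * (k + 1)) * (Nat.log 2 (Fintype.card (U r).G) + 1)) ∧
      (∀ w, N ^ 3 < 2 ^ (w + 1) →
        ∀ (R : Type) [Fintype R] [Nonempty R] (K W : R → Type) [∀ r, Field (K r)]
          [∀ r, Fintype (W r)] (P : ∀ r, Net (K r) (Fin N × Option (Fin (w + 1))) (W r))
          (a : ∀ r, W r → K r),
        (∀ r x, Known u T x → (P r).value (a r) x ≠ 0 → ¬ Yes x) →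
        (∀ x, Known u T x → ¬ Yes x → Nat.card R ≤
          2 ^ (n / 2 ^ (70 * (k + 1))) * Nat.card {r // (P r).value (a r) x ≠ 0}) →
        (∀ r, ∑ i ∈ T, (P r).reads (i, some 0) ≤ k * n) →
        ∃ r, n ≤ 2 ^ (70 * (k + 1)) * (Nat.log 2 (Fintype.card (W r)) + 1))) ∧
    (∀ ε : ℝ, 0 < ε → ε ≤ 1 → ∃ n₀ : ℕ, ∀ n ≥ n₀,
      ∃ (N : ℕ) (u : Fin N → ℕ) (T : Finset (Fin N)),
      (N : ℝ) ≤ (n : ℝ) ^ (1 + ε) ∧ T.card = 2 * n ∧
      (∀ w, ∀ x : Fin N × Option (Fin (w + 1)) → Bool, Known u T x → Valid x) ∧
      (∀ w, N ^ 3 < 2 ^ (w + 1) → ∀ m μ : ℕ, (m : ℝ) ≤ (n : ℝ) ^ (1 - ε) →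
          (μ : ℝ) ≤ (n : ℝ) ^ (1 - ε) →
        ∀ (R : Type) [Fintype R] [Nonempty R] (U : R → Circ (Fin N × Option (Fin (w + 1)))),
        (∀ r, Fintype.card (U r).G ≤ 2 ^ m) →
        (∀ r x, Known u T x → (U r).Val x (U r).out → ¬ Yes x) →
        (∀ x, Known u T x → ¬ Yes x →
          Nat.card R ≤ 2 ^ μ * Nat.card {r // (U r).Val x (U r).out}) →
        ∃ r, ∀ d : (U r).G → Fin N × Option (Fin (w + 1)) → ℕ, IsDeg (U r) id d →
          ε / 210 * (n * Real.logb 2 n) ≤ (∑ i ∈ T, d (U r).out (i, some 0) : ℕ)) ∧
      (∀ w, N ^ 3 < 2 ^ (w + 1) → ∀ m μ : ℕ, (m : ℝ) ≤ (n : ℝ) ^ (1 - ε) →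
          (μ : ℝ) ≤ (n : ℝ) ^ (1 - ε) →
        ∀ (R : Type) [Fintype R] [Nonempty R] (K W : R → Type) [∀ r, Field (K r)]
          [∀ r, Fintype (W r)] (P : ∀ r, Net (K r) (Fin N × Option (Fin (w + 1))) (W r))
          (a : ∀ r, W r → K r),
        (∀ r, Fintype.card (W r) ≤ 2 ^ m) →
        (∀ r x, Known u T x → (P r).value (a r) x ≠ 0 → ¬ Yes x) →
        (∀ x, Known u T x → ¬ Yes x →
          Nat.card R ≤ 2 ^ μ * Nat.card {r // (P r).value (a r) x ≠ 0}) →
        ∃ r, ε / 210 * (n * Real.logb 2 n) ≤ (∑ i ∈ T, (P r).reads (i, some 0) : ℕ))) ∧
    ∀ (K : Type) [Field K] (N w : ℕ) (T : Finset (Fin N)), T.Nonempty →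
      ∃ (W : Type) (_ : Fintype W) (P : Net K (Fin N × Option (Fin (w + 1))) W) (a : W → K),
        Fintype.card W = 2 ^ T.card + 1 ∧ (∀ i ∈ T, P.reads (i, some 0) = 1) ∧
          ∀ x, P.value a x ≠ 0 ↔ Valid x ∧ ¬ Yes x :=
  ⟨main, fun _ hε hε1 => asymp hε hε1, fun K _ N w T hT => upper K N w T hT⟩

end Pool.Agent.Results.MP_13bec0_lc.KnownUpToLastBit
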