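import Pool.Agent.V11163.NT.S3

/-!
# 3SUM needs many reads or much memory: tree tensor networks

The inputs are the bits (sign and absolute value in binary) of `n` numbers (`Valid`, `Yes`,
`Pool/Agent/W896/FD/Sum3.lean`). A tree tensor network (`Net`, `Pool/Agent/TH700/TN/Defs.lean`) is a
binary tree. Every leaf reads one bit and holds a vector for each of its two values; every inner node
combines the vectors of its children by an arbitrary bilinear map; the output is a linear form of
the vector of the root. The network accepts if the output is not zero. The coefficients are in any
field; the dimension `|W|` of the vectors is the bond dimension, its logarithm is the memory. A bit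
may be read by many leaves. Matrix products (weighted automata and oblivious algebraic branching
programs of width `|W|`), dynamic programming over any tree of the input bits, and the counting of
solutions modulo a prime by such programs are of this kind; the contributions of different
computations may cancel.

The networks have to accept the sets of `n` integers in `[-n ^ 3, n ^ 3]` without a solution
`a + b = c` with three different elements, and no sets with a solution. For networks in which the
`n` least significant bits of the numbers are read at most `k` times on average (all the other bits
may be read as often as one likes) we show that the memory is at least `n / 2 ^ (O (k))`. So with a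
memory of `n ^ (1 - ε)` bits these bits must be read `Ω (ε n log n)` times in total. This remains
true for random networks with one-sided error which find out only with probability
`2 ^ (- n / 2 ^ (O (k)))` that there is no solution. For constant `k` the bound is optimal up to the
constant factor: with bond dimension `2 ^ n + 1` one can decide 3SUM, reading each of the least
significant bits once.

**Proof.** The tree is cut into `O (k ^ 2)` pieces, each of which reads only few of the last bits of
the numbers which are not read too often; the output is a sum of `|W| ^ (O (k ^ 2))` products of
functions of the pieces (`net_pd`). A coloring of the pieces by two sides gives two sets of indices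
of linear size whose last bits are read on one side only (`exists_color`). A random placement of a
matching on the indices makes many of its pairs cross between the two sets. The matching is coded in
the other bits as in the starting result on formal degree. If all bits but those of the crossing
pairs are fixed, the outputs form a matrix of rank at most `|W| ^ (O (k ^ 2))` in which all entries
`(z, z)` of many `z` are not zero, while for `z ≠ z'` one of the entries `(z, z')` and `(z', z)` is
zero; so the Hadamard product of the matrix with its transpose is diagonal on these rows, and its
rank is at most the square (`rank_sq`).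
-/

set_option autoImplicit false

namespace Pool.Agent.Results.MP_13bec0_lc.TensorNetworks

open Pool.Agent.W896.FD.Sum3 Pool.Agent.TH700.TN Pool.Agent.V11163.NT.S3

/-- The bit `(i, none)` is the sign of the number `i`, the bit `(i, some j)` has the weight `2 ^ j`;
`m + 1` bits are enough for `n ^ 3`.

(1) Let `T r` (`r` in a finite nonempty set) be tree tensor networks over fields `K r`, with vectors
indexed by `W r` and output vectors `a r`. Suppose that none of them accepts an instance (`n`
different integers in `[-n ^ 3, n ^ 3]`) with different `a, b, c` such that `a + b = c`, and that
every instance without such a triple is accepted by at least a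
`2 ^ (- ⌊n / 2 ^ (240 (k + 1))⌋)` fraction of them. If each `T r` has at most `k n` leaves which read
least significant bits of the numbers, then `n ≤ 2 ^ (240 (k + 1)) (⌊log₂ |W r|⌋ + 1)` for some `r`.

(2) For `0 < ε ≤ 1` and all large `n`: if such a family has bond dimensions at most `2 ^ w` and
acceptance probability at least `2 ^ (- μ)` on the instances without a solution, where
`w, μ ≤ n ^ (1 - ε)`, then some `T r` has at least `(ε / 720) n log₂ n` leaves which read least
significant bits of the numbers.

(3) For `n ≥ 1` and every field there is a network with bond dimension `2 ^ n + 1` with one leaf for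
each least significant bit which accepts exactly the instances without a solution. -/
theorem result :
    (∀ k n m : ℕ, n ^ 3 < 2 ^ (m + 1) →
      ∀ (R : Type) [Fintype R] [Nonempty R] (K W : R → Type) [∀ r, Field (K r)]
        [∀ r, Fintype (W r)] (T : ∀ r, Net (K r) (Fin n × Option (Fin (m + 1))) (W r))
        (a : ∀ r, W r → K r),
        (∀ r x, Valid x → (T r).value (a r) x ≠ 0 → ¬ Yes x) →
        (∀ x, Valid x → ¬ Yes x → Nat.card R ≤
          2 ^ (n / 2 ^ (240 * (k + 1))) * Nat.card {r // (T r).value (a r) x ≠ 0}) →
        (∀ r, ∑ i, (T r).reads (i, some 0) ≤ k * n) →
        ∃ r, n ≤ 2 ^ (240 * (k + 1)) * (Nat.log 2 (Fintype.card (W r)) + 1)) ∧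
    (∀ ε : ℝ, 0 < ε → ε ≤ 1 → ∃ n₀ : ℕ, ∀ n ≥ n₀,
      ∀ m w μ : ℕ, n ^ 3 < 2 ^ (m + 1) → (w : ℝ) ≤ (n : ℝ) ^ (1 - ε) →
        (μ : ℝ) ≤ (n : ℝ) ^ (1 - ε) →
      ∀ (R : Type) [Fintype R] [Nonempty R] (K W : R → Type) [∀ r, Field (K r)]
        [∀ r, Fintype (W r)] (T : ∀ r, Net (K r) (Fin n × Option (Fin (m + 1))) (W r))
        (a : ∀ r, W r → K r),
        (∀ r, Fintype.card (W r) ≤ 2 ^ w) →
        (∀ r x, Valid x → (T r).value (a r) x ≠ 0 → ¬ Yes x) →
        (∀ x, Valid x → ¬ Yes x →
          Nat.card R ≤ 2 ^ μ * Nat.card {r // (T r).value (a r) x ≠ 0}) →
        ∃ r, ε / 720 * (n * Real.logb 2 n) ≤ (∑ i, (T r).reads (i, some 0) : ℕ)) ∧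
    ∀ (K : Type) [Field K] (n m : ℕ), 1 ≤ n →
      ∃ (W : Type) (_ : Fintype W) (T : Net K (Fin n × Option (Fin (m + 1))) W) (a : W → K),
        Fintype.card W = 2 ^ n + 1 ∧ (∀ i, T.reads (i, some 0) = 1) ∧
          ∀ x, T.value a x ≠ 0 ↔ Valid x ∧ ¬ Yes x :=
  ⟨fun k n m hm R _ _ K W _ _ T a hU hc hd => sum3 k n m hm R K W T a hU hc hd,
    fun _ hε hε1 => sum3_asym hε hε1, fun K _ n m hn => sum3_upper K n m hn⟩

end Pool.Agent.Results.MP_13bec0_lc.TensorNetworks
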